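import Pool.Agent.MWBN.Stmts

/-!
Squad MWBN, row W1N: the lattice above W is distributive.
-/

set_option autoImplicit false

namespace Pool.Agent.MWBN.H60

open Pool.Agent.Helper14_MV Pool.Agent.Helper2_MV Pool.Agent.MVO Pool.Agent.MWL Pool.Agent.MWS

theorem w1n (h1 : MWS.XcwStmt) (h2 : DsnStmt) (h3 : XcnStmt) : W1nStmt :=
  fun n β hβ => h2 n VW β h1.1 (h3 n β hβ)

end Pool.Agent.MWBN.H60
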